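import Pool.Agent.R228.PW.Main

/-!
# A solution of a weighted pendulum equation which leaves the expected range
-/

set_option autoImplicit false

namespace Pool.Agent.Results.MP_4601b9_an.WrongSign

open Pool.Agent.R228.PW

/-- Question Q1 has a negative answer: some weight `a` with positive lower and upper bounds and
some `φ` in `Ḣ¹(ℝ)` (with derivative `g`) solve the weighted pendulum equation on `ℝ \ {0}` and
satisfy the constraints, although `φ x < 0` for some `x > 0`. -/
theorem result : ∃ a φ g : ℝ → ℝ, IsWeight a ∧ HasWeakDeriv φ g ∧ Solves a φ g ∧ Constraint φ ∧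
    ∃ x > 0, φ x < 0 :=
  ⟨a, φ, g, isWeight_a, hasWeakDeriv, solves, constraint, 5 * Real.pi / 8,
    by positivity, φ_neg⟩

end Pool.Agent.Results.MP_4601b9_an.WrongSign
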